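import Pool.Agent.Hyp.Defs

/-!
# Uniform hyperbolic cross maximal inequality: the interface between the two halves

Finite model (all notions from `Pool/Agent/Hyp/Base.lean`, `Base2.lean`, `Defs.lean`):
`Bits A = Fin A → Bool`, `av2` the average over `(x, y) ∈ Bits A × Bits A`, `Coef A` the families
`c n m x y` (`n m : Fin A`), `AdC c`: `c n m` depends only on the first `n` bits of `x` and the first
`m` bits of `y`; `dd c n m x y = sg (x n) * sg (y m) * c n m x y`; `VV c = ∑ c n m ^ 2`,
`SS c k' k = ∑ over k' ≤ n + m < k of dd c n m`, `TT c K x y = ⨆ k ∈ K of |SS c 0 k x y|`.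

The target of the CORE side is `∃ B, 1 ≤ B ∧ CoreBound B`.  It follows from a bound
`∃ C, PieceBound C` for the pieces (`coreBound_of_piece` in the module `CoreP`).
The TRANSFER side proves the theorem on `ℝ²` from `CoreBound B`.
-/

set_option autoImplicit false

namespace Pool.Agent.HypU

open Finset Pool.Agent.Hyp

/-- the maximal inequality of the finite model with the constant `B`, for all finite sets of times -/
def CoreBound (B : ℝ) : Prop :=
  ∀ (A : ℕ) (c : Coef A), AdC c → ∀ K : Finset ℕ,
    av2 (fun x y => TT c K x y ^ 2) ≤ B * av2 (VV c)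

/-- the fourth moment inequality for one piece: `w` is the indicator function of a set which contains
all cells of `c` (`Sup c w`), and `av2 (VV c ^ p) ≤ (32 p^2)^p av2 w` for all `p ≥ 1` (`Mom c w`) -/
def PieceBound (C : ℝ) : Prop :=
  ∀ (A : ℕ) (c : Coef A) (w : Bits A → Bits A → ℝ), AdC c → Ind w → Sup c w → Mom c w →
    ∀ K : Finset ℕ, av2 (fun x y => TT c K x y ^ 4) ≤ C * av2 w

theorem CoreBound.mono {B B' : ℝ} (h : CoreBound B) (hB : B ≤ B') : CoreBound B' := by
  intro A c hc K
  exact (h A c hc K).trans (mul_le_mul_of_nonneg_right hB (av2_nonneg fun x y => VV_nonneg c x y))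

end Pool.Agent.HypU
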