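import Pool.Agent.HypU.Full

/-!
# The statement of the uniform maximal theorem for MP_05cdc8_an

`UniformMax Φ`: there is a constant `C` with `∫ (sup over k ∈ ℤ of |T_{2^k} f|)² ≤ C ∫ |f|²` for every
`f ∈ L²(ℝ²)`.  `uniformMax_of_core`: it follows from `CoreBound Λ` for all `Φ ∈ C_c^∞(ℝ)`.
(The definitions are those of `Results/MP_05cdc8_an/AllScales.lean`.  This file is no hand-in.)
-/

set_option autoImplicit false

namespace Pool.Agent.HypU.Final

open MeasureTheory FourierTransform Pool.Agent.Hyp Pool.Agent.HypU ENNReal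

/-- the plane `ℝ²` -/
abbrev Plane := EuclideanSpace ℝ (Fin 2)

/-- the space `L²(ℝ²)` of complex valued functions -/
noncomputable abbrev L2 : Type := Lp ℂ 2 (volume : Measure Plane)

/-- the values of an element of `L²(ℝ²)` (a representative) -/
noncomputable def val (f : L2) (x : Plane) : ℂ := f x

/-- the Fourier transform on `L²(ℝ²)` -/
noncomputable def hat (f : L2) : L2 := 𝓕 f

/-- the inverse Fourier transform on `L²(ℝ²)` -/
noncomputable def unhat (f : L2) : L2 := 𝓕⁻ f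

/-- `u` is square integrable -/
def IsL2 (u : Plane → ℂ) : Prop := MemLp u 2 volume

/-- the element of `L²(ℝ²)` given by a square integrable function -/
noncomputable def ofFun (u : Plane → ℂ) (h : IsL2 u) : L2 := MemLp.toLp u h

/-- the symbol `m_t(ξ) = Φ(ξ₁² ξ₂² / t)` -/
noncomputable def symbol (Φ : ℝ → ℂ) (t : ℝ) (ξ : Plane) : ℂ := Φ (ξ 0 ^ 2 * ξ 1 ^ 2 / t)

/-- the product `m_t f̂` -/
noncomputable def prod (Φ : ℝ → ℂ) (t : ℝ) (f : L2) (ξ : Plane) : ℂ :=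
  symbol Φ t ξ * val (hat f) ξ

open Classical in
/-- the multiplier operator `T_t` on `L²(ℝ²)`: the inverse Fourier transform of `m_t f̂` -/
noncomputable def T (Φ : ℝ → ℂ) (t : ℝ) (f : L2) : L2 :=
  if h : IsL2 (prod Φ t f) then unhat (ofFun (prod Φ t f) h) else 0

/-- the full maximal function `M f(x) = sup over k ∈ ℤ of |T_{2^k} f(x)|`, a number in `[0, ∞]` -/
noncomputable def M (Φ : ℝ → ℂ) (f : L2) (x : Plane) : ℝ≥0∞ :=
  ⨆ k : ℤ, ‖val (T Φ (2 ^ k) f) x‖ₑ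

/-- the integral of the square of a function with values in `[0, ∞]` -/
noncomputable def intSq (u : Plane → ℝ≥0∞) : ℝ≥0∞ := ∫⁻ x, u x ^ 2

/-- the absolute value of an element of `L²(ℝ²)` -/
noncomputable def abv (f : L2) (x : Plane) : ℝ≥0∞ := ‖val f x‖ₑ

/-- the maximal operator is bounded on `L²(ℝ²)` -/
def UniformMax (Φ : ℝ → ℂ) : Prop :=
  ∃ C : ℝ, ∀ f : L2, intSq (M Φ f) ≤ ENNReal.ofReal C * intSq (abv f)

theorem T_isT {Φ : ℝ → ℂ} {t : ℝ} {f g : L2} (hg : IsT Φ t f g) : IsT Φ t f (T Φ t f) := by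
  have h : IsL2 (prod Φ t f) :=
    MemLp.ae_eq hg (Lp.memLp (𝓕 g : L2))
  unfold IsT
  have h1 : T Φ t f = 𝓕⁻ (ofFun (prod Φ t f) h) := by
    unfold T
    rw [dif_pos h]
    rfl
  have h2 : (𝓕 (T Φ t f) : L2) = ofFun (prod Φ t f) h := by
    rw [h1]
    exact FourierTransform.fourier_fourierInv_eq _
  rw [h2]
  exact MemLp.coeFn_toLp h

theorem norm_sq_eq (f : L2) : ENNReal.ofReal ‖f‖ ^ 2 = intSq (abv f) := by
  rw [Lp.norm_def, ENNReal.ofReal_toReal (Lp.eLpNorm_ne_top _),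
    eLpNorm_eq_lintegral_rpow_enorm_toReal (by norm_num) (by norm_num)]
  unfold intSq abv val
  rw [← ENNReal.rpow_natCast, ← ENNReal.rpow_mul]
  have e1 : 1 / (2 : ℝ≥0∞).toReal * ((2 : ℕ) : ℝ) = 1 := by simp
  rw [e1, ENNReal.rpow_one]
  refine lintegral_congr fun x => ?_
  simp

theorem uniformMax_of_core {Λ : ℝ} (hΛ1 : 1 ≤ Λ) (hΛ : CoreBound Λ) {Φ : ℝ → ℂ}
    (hΦ : ContDiff ℝ (⊤ : ℕ∞) Φ) (hc : HasCompactSupport Φ) : UniformMax Φ := by
  obtain ⟨D, _, h1, _, _⟩ := phi_bounds hΦ hc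
  obtain ⟨C, _, h⟩ := full_main hΛ1 hΛ hΦ hc
  refine ⟨C, fun f => ?_⟩
  have hT : ∀ k : ℤ, IsT Φ (2 ^ k) f ((fun k : ℤ => T Φ (2 ^ k) f) k) := by
    intro k
    obtain ⟨g, hg⟩ := exists_isT hΦ.continuous h1 (t := (2 : ℝ) ^ k) (by positivity) f
    exact T_isT hg
  have h2 := h f (fun k : ℤ => T Φ (2 ^ k) f) hT
  rw [norm_sq_eq] at h2
  exact h2

end Pool.Agent.HypU.Final
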