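import Pool.Agent.HypU.Transfer

/-!
# The full maximal function on `L²(ℝ²)` from the inequality of the finite model

`CoreBound Λ` implies `∫ (sup over k ∈ ℤ of |T_{2^k} f|)² ≤ C ‖f‖²` for all `f ∈ L²(ℝ²)`.

**PROOF.** `main_rU` for `K = {-n, ..., n}` and monotone convergence.
-/

set_option autoImplicit false

namespace Pool.Agent.HypU

open MeasureTheory ENNReal FourierTransform Pool.Agent.Hyp

/-- the maximal function over `{-n, ..., n}` -/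
private noncomputable def mxn (g : ℤ → Lp ℂ 2 (volume : Measure E2)) (n : ℕ) (x : E2) : ℝ≥0∞ :=
  ⨆ k : Finset.Icc (-(n : ℤ)) n, ‖g k x‖ₑ

private theorem mxn_mono (g : ℤ → Lp ℂ 2 (volume : Measure E2)) (x : E2) :
    Monotone fun n => mxn g n x := by
  intro n m hnm
  refine iSup_le fun k => ?_
  have hk := Finset.mem_Icc.1 k.2
  have hk' : (k : ℤ) ∈ Finset.Icc (-(m : ℤ)) m := by
    rw [Finset.mem_Icc]
    constructor <;> omega
  exact le_iSup (fun k : Finset.Icc (-(m : ℤ)) m => ‖g k x‖ₑ) ⟨k, hk'⟩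

private theorem mxn_iSup (g : ℤ → Lp ℂ 2 (volume : Measure E2)) (x : E2) :
    ⨆ k : ℤ, ‖g k x‖ₑ = ⨆ n : ℕ, mxn g n x := by
  refine le_antisymm (iSup_le fun k => ?_) (iSup_le fun n => iSup_le fun k => ?_)
  · have hk : k ∈ Finset.Icc (-((k.natAbs : ℕ) : ℤ)) (k.natAbs : ℕ) := by
      rw [Finset.mem_Icc]
      constructor <;> omega
    exact (le_iSup (fun j : Finset.Icc (-((k.natAbs : ℕ) : ℤ)) (k.natAbs : ℕ) => ‖g j x‖ₑ)
      ⟨k, hk⟩).trans (le_iSup (fun n : ℕ => mxn g n x) k.natAbs)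
  · exact le_iSup (fun k : ℤ => ‖g k x‖ₑ) (k : ℤ)

private theorem mxn_real (g : ℤ → Lp ℂ 2 (volume : Measure E2)) (n : ℕ) (x : E2) :
    mxn g n x = ‖(⨆ k : Finset.Icc (-(n : ℤ)) n, ‖g k x‖)‖ₑ := by
  have hne : Nonempty (Finset.Icc (-(n : ℤ)) n) := ⟨⟨0, by
    rw [Finset.mem_Icc]; constructor <;> omega⟩⟩
  have h0 : 0 ≤ ⨆ k : Finset.Icc (-(n : ℤ)) n, ‖g k x‖ := Real.iSup_nonneg fun _ => norm_nonneg _
  rw [Real.enorm_eq_ofReal h0]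
  refine le_antisymm (iSup_le fun k => ?_) ?_
  · rw [← ofReal_norm]
    exact ENNReal.ofReal_le_ofReal (le_ciSup (f := fun k : Finset.Icc (-(n : ℤ)) n => ‖g k x‖)
      (Set.finite_range _).bddAbove k)
  · obtain ⟨k, hk⟩ := exists_eq_ciSup_of_finite (f := fun k : Finset.Icc (-(n : ℤ)) n => ‖g k x‖)
    rw [← hk, ofReal_norm]
    exact le_iSup (fun k : Finset.Icc (-(n : ℤ)) n => ‖g k x‖ₑ) k

theorem full_main {Λ : ℝ} (hΛ1 : 1 ≤ Λ) (hΛ : CoreBound Λ) {Φ : ℝ → ℂ}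
    (hΦ : ContDiff ℝ (⊤ : ℕ∞) Φ) (hc : HasCompactSupport Φ) :
    ∃ C : ℝ, 0 ≤ C ∧ ∀ (f : Lp ℂ 2 (volume : Measure E2)) (g : ℤ → Lp ℂ 2 (volume : Measure E2)),
      (∀ k, IsT Φ (2 ^ k) f (g k)) →
      ∫⁻ x : E2, (⨆ k : ℤ, ‖g k x‖ₑ) ^ 2 ≤ ENNReal.ofReal C * ENNReal.ofReal ‖f‖ ^ 2 := by
  obtain ⟨D, hD, h1, h2, h3⟩ := phi_bounds hΦ hc
  refine ⟨(10 ^ 3 * D * Real.sqrt Λ) ^ 2, by positivity, fun f g hg => ?_⟩
  have hfin : ∀ n : ℕ, ∫⁻ x : E2, (mxn g n x) ^ 2 ≤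
      ENNReal.ofReal ((10 ^ 3 * D * Real.sqrt Λ) ^ 2) * ENNReal.ofReal ‖f‖ ^ 2 := by
    intro n
    have h4 := main_rU hΦ hD h1 h2 h3 (Finset.Icc (-(n : ℤ)) n) hΛ1 hΛ f g (fun k _ => hg k)
    rw [eLpNorm_eq_lintegral_rpow_enorm_toReal (by norm_num) (by norm_num)] at h4
    have h5 := ENNReal.rpow_le_rpow h4 (show (0 : ℝ) ≤ 2 by norm_num)
    rw [← ENNReal.rpow_mul] at h5
    have e1 : 1 / (2 : ℝ≥0∞).toReal * 2 = 1 := by simp
    rw [e1, ENNReal.rpow_one] at h5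
    have e2 : ∀ x : E2, mxn g n x ^ 2 =
        ‖(⨆ k : Finset.Icc (-(n : ℤ)) n, ‖g k x‖)‖ₑ ^ (2 : ℝ≥0∞).toReal := by
      intro x
      rw [mxn_real]
      simp
    simp only [e2]
    refine h5.trans (le_of_eq ?_)
    rw [ENNReal.ofReal_mul (by positivity), ENNReal.ofReal_pow (by positivity)]
    norm_num [mul_pow]
  have hmeas : ∀ n : ℕ, AEMeasurable (fun x : E2 => mxn g n x ^ 2) volume := by
    intro n
    unfold mxn
    exact (AEMeasurable.iSup fun k : Finset.Icc (-(n : ℤ)) n =>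
      (Lp.aestronglyMeasurable (g k)).enorm).pow_const 2
  have e3 : ∀ x : E2, (⨆ k : ℤ, ‖g k x‖ₑ) ^ 2 = ⨆ n : ℕ, mxn g n x ^ 2 := by
    intro x
    rw [mxn_iSup, ENNReal.iSup_pow]
  simp only [e3]
  rw [lintegral_iSup' hmeas (Filter.Eventually.of_forall fun x n m hnm =>
    pow_le_pow_left' (mxn_mono g x hnm) 2)]
  exact iSup_le hfin

end Pool.Agent.HypU
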