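import Pool.Agent.HypU.Defs
import Pool.Agent.Hyp.MainT

/-!
# The transfer from the finite model to the plane, with a parameter

`CoreBound B` (the maximal inequality of the finite model, constant `B`, all finite sets of times)
implies the maximal inequality for the hyperbolic cross multipliers on `L²(ℝ²)` for all finite sets of
scales, with the constant `10^3 D √B`.  The proofs are those of the modules `CoreC`, `DiscB`, `DiscZ`,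
`LimB`, `LimC`, `EuM`, `MainT` of `Pool/Agent/Hyp` with `10^23 r^8` replaced by `B`.
-/

set_option autoImplicit false

namespace Pool.Agent.HypU

open Finset MeasureTheory ENNReal FourierTransform Filter Topology Pool.Agent.Hyp

theorem coreCU {A : ℕ} (f : Bits A → Bits A → ℂ) (K : Finset ℕ) {Λ : ℝ} (hΛ1 : 1 ≤ Λ)
    (hΛ : CoreBound Λ) :
    av2 (fun x y => (⨆ j : K, ‖SC f j x y‖) ^ 2) ≤
      Λ * av2 (fun x y => ‖f x y‖ ^ 2) := by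
  have h0 : (0 : ℝ) ≤ Λ := by linarith
  have h1 := hΛ A _ (coefF_adc fun x y => (f x y).re) K
  have h2 := hΛ A _ (coefF_adc fun x y => (f x y).im) K
  have h3 := bessel fun x y => (f x y).re
  have h4 := bessel fun x y => (f x y).im
  have h5 : av2 (fun x y => ‖f x y‖ ^ 2) =
      av2 (fun x y => (f x y).re ^ 2) + av2 (fun x y => (f x y).im ^ 2) := by
    rw [← av2_add]
    exact av2_congr fun x y => CoreC_norm_sq (f x y)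
  calc av2 (fun x y => (⨆ j : K, ‖SC f j x y‖) ^ 2)
      ≤ av2 (fun x y => TT (coefF (fun x y => (f x y).re)) K x y ^ 2 +
          TT (coefF (fun x y => (f x y).im)) K x y ^ 2) := av2_mono fun x y => CoreC_ptw f K x y
    _ = av2 (fun x y => TT (coefF (fun x y => (f x y).re)) K x y ^ 2) +
          av2 (fun x y => TT (coefF (fun x y => (f x y).im)) K x y ^ 2) := av2_add _ _
    _ ≤ Λ * av2 (fun x y => (f x y).re ^ 2) +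
          Λ * av2 (fun x y => (f x y).im ^ 2) :=
        add_le_add (h1.trans (mul_le_mul_of_nonneg_left h3 h0))
          (h2.trans (mul_le_mul_of_nonneg_left h4 h0))
    _ = Λ * av2 (fun x y => ‖f x y‖ ^ 2) := by
        rw [h5]
        ring

private theorem DiscB_ptw {ι : Type} [Fintype ι] (g a b : ι → ℂ) {M : ℝ} (_hM : 0 ≤ M)
    (hg : ∀ k, g k = a k + b k) (ha : ∀ k, ‖a k‖ ≤ M) :
    (⨆ k, ‖g k‖) ^ 2 ≤ 2 * M ^ 2 + 2 * ∑ k, ‖b k‖ ^ 2 := by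
  have hs : 0 ≤ ∑ k, ‖b k‖ ^ 2 := Finset.sum_nonneg fun k _ => by positivity
  rcases isEmpty_or_nonempty ι with h | h
  · rw [Real.iSup_of_isEmpty]
    nlinarith [sq_nonneg M]
  · obtain ⟨k, hk⟩ := exists_eq_ciSup_of_finite (f := fun k => ‖g k‖)
    rw [← hk]
    have h1 : ‖g k‖ ≤ M + ‖b k‖ := by
      rw [hg k]
      exact (norm_add_le _ _).trans (add_le_add (ha k) le_rfl)
    have h2 : ‖b k‖ ^ 2 ≤ ∑ k, ‖b k‖ ^ 2 :=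
      Finset.single_le_sum (f := fun k => ‖b k‖ ^ 2) (fun i _ => by positivity)
        (Finset.mem_univ k)
    have h3 : ‖g k‖ ^ 2 ≤ (M + ‖b k‖) ^ 2 := pow_le_pow_left₀ (norm_nonneg _) h1 2
    nlinarith [sq_nonneg (M - ‖b k‖)]

private theorem DiscB_exch {A : ℕ} (f : Bits A → Bits A → Bits A → Bits A → ℝ) :
    av2 (fun a b => av2 (fun x y => f a b x y)) =
      av2 (fun x y => av2 (fun a b => f a b x y)) := by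
  rw [av2_eq, av2_eq (fun x y => av2 (fun a b => f a b x y))]
  have e1 : ∀ p : Bits A × Bits A, av2 (fun x y => f p.1 p.2 x y) =
      av fun q : Bits A × Bits A => f p.1 p.2 q.1 q.2 := fun p => av2_eq _
  have e2 : ∀ q : Bits A × Bits A, av2 (fun a b => f a b q.1 q.2) =
      av fun p : Bits A × Bits A => f p.1 p.2 q.1 q.2 := fun q => av2_eq _
  rw [av_congr e1, av_congr e2]
  exact av_comm (fun (p q : Bits A × Bits A) => f p.1 p.2 q.1 q.2)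

private theorem DiscB_shift {A : ℕ} (σ1 σ2 : Bits A ≃ Bits A) (G : Bits A → Bits A → ℝ) :
    av2 (fun x y => G (σ1 x) (σ2 y)) = av2 G := by
  have h1 : ∀ x, av (fun y => G (σ1 x) (σ2 y)) = av (fun y => G (σ1 x) y) := fun x =>
    av_equiv σ2 (fun y => G (σ1 x) y)
  show av (fun x => av fun y => G (σ1 x) (σ2 y)) = av (fun x => av fun y => G x y)
  rw [av_congr h1]
  exact av_equiv σ1 (fun x => av fun y => G x y)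

/-- the difference between the multiplier and the truncated martingale -/
private noncomputable def DiscB_u {A : ℕ} (Φ : ℝ → ℂ) (k : ℤ) (ξ : ℤ × ℤ) (x y : Bits A) : ℂ :=
  Φ ((ξ.1 : ℝ) ^ 2 * (ξ.2 : ℝ) ^ 2 / 2 ^ (k : ℤ)) * (ch ξ.1 x * ch ξ.2 y) -
    Φ 0 * SC (fun x y => ch ξ.1 x * ch ξ.2 y) (jk k) x y

private theorem DiscB_u_le {Φ : ℝ → ℂ} {A : ℕ} (k : ℤ) {ξ : ℤ × ℤ}
    (hF : 2 * |ξ.1| < 2 ^ A ∧ 2 * |ξ.2| < 2 ^ A) (hF0 : ξ.1 ≠ 0 ∧ ξ.2 ≠ 0) :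
    av2 (fun x y : Bits A => ‖DiscB_u Φ k ξ x y‖ ^ 2) ≤
      mbd Φ k (|(ξ.1 : ℝ)| * |(ξ.2 : ℝ)|) := by
  have hv : (ξ.1 : ℝ) ^ 2 * (ξ.2 : ℝ) ^ 2 = (|(ξ.1 : ℝ)| * |(ξ.2 : ℝ)|) ^ 2 := by
    rw [mul_pow, sq_abs, sq_abs]
  unfold DiscB_u mbd
  rw [hv]
  split_ifs with h
  · exact (mk_lo hF0.1 hF0.2 hF.1 hF.2 _ _ _).trans (le_of_eq (by
      simp [*]))
  · exact (mk_lo hF0.1 hF0.2 hF.1 hF.2 _ _ _).trans (le_of_eq (by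
      simp [*]))
  · exact mk_hi hF0.1 hF0.2 hF.1 hF.2 _ _ _

private theorem DiscB_second {Φ : ℝ → ℂ} {D : ℝ} (h1 : ∀ s, 0 ≤ s → ‖Φ s‖ ≤ D)
    (h2 : ∀ s, 0 ≤ s → s * ‖Φ s‖ ≤ D) (h3 : ∀ s, 0 ≤ s → ‖Φ s - Φ 0‖ ≤ D * s) (A : ℕ)
    (K : Finset ℤ)
    (F : Finset (ℤ × ℤ)) (hF : ∀ ξ ∈ F, 2 * |ξ.1| < 2 ^ A ∧ 2 * |ξ.2| < 2 ^ A)
    (hF0 : ∀ ξ ∈ F, ξ.1 ≠ 0 ∧ ξ.2 ≠ 0) (p : ℤ × ℤ → ℂ) :
    av2 (fun a b : Bits A => av2 (fun x y : Bits A => ∑ k : K,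
      ‖∑ ξ ∈ F, (p ξ * DiscB_u Φ k ξ x y) * (ch ξ.1 a * ch ξ.2 b)‖ ^ 2)) ≤
      1000 * D ^ 2 * ∑ ξ ∈ F, ‖p ξ‖ ^ 2 := by
  rw [DiscB_exch (fun a b x y => ∑ k : K,
      ‖∑ ξ ∈ F, (p ξ * DiscB_u Φ k ξ x y) * (ch ξ.1 a * ch ξ.2 b)‖ ^ 2)]
  have e1 : ∀ x y : Bits A, av2 (fun a b : Bits A => ∑ k : K,
      ‖∑ ξ ∈ F, (p ξ * DiscB_u Φ k ξ x y) * (ch ξ.1 a * ch ξ.2 b)‖ ^ 2) =
      ∑ k : K, ∑ ξ ∈ F, ‖p ξ‖ ^ 2 * ‖DiscB_u Φ k ξ x y‖ ^ 2 := by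
    intro x y
    rw [av2_sum]
    refine Finset.sum_congr rfl fun k _ => ?_
    rw [parseval F hF]
    refine Finset.sum_congr rfl fun ξ _ => ?_
    rw [norm_mul, mul_pow]
  rw [av2_congr e1, av2_sum]
  have e2 : ∀ k ∈ (Finset.univ : Finset K),
      av2 (fun x y : Bits A => ∑ ξ ∈ F, ‖p ξ‖ ^ 2 * ‖DiscB_u Φ k ξ x y‖ ^ 2) ≤
        ∑ ξ ∈ F, ‖p ξ‖ ^ 2 * mbd Φ k (|(ξ.1 : ℝ)| * |(ξ.2 : ℝ)|) := by
    intro k _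
    rw [av2_sum]
    refine Finset.sum_le_sum fun ξ hξ => ?_
    rw [av2_const_mul]
    exact mul_le_mul_of_nonneg_left (DiscB_u_le _ (hF ξ hξ) (hF0 ξ hξ)) (by positivity)
  refine (Finset.sum_le_sum e2).trans ?_
  rw [Finset.sum_comm, Finset.mul_sum]
  refine Finset.sum_le_sum fun ξ hξ => ?_
  rw [← Finset.mul_sum]
  have hv : (1 : ℝ) ≤ |(ξ.1 : ℝ)| * |(ξ.2 : ℝ)| := by
    have ha : (1 : ℝ) ≤ |(ξ.1 : ℝ)| := by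
      rw [← Int.cast_abs]; exact_mod_cast Int.one_le_abs (hF0 ξ hξ).1
    have hb : (1 : ℝ) ≤ |(ξ.2 : ℝ)| := by
      rw [← Int.cast_abs]; exact_mod_cast Int.one_le_abs (hF0 ξ hξ).2
    nlinarith
  have e3 : ∑ k : K, mbd Φ k (|(ξ.1 : ℝ)| * |(ξ.2 : ℝ)|) ≤ 1000 * D ^ 2 := by
    have := Finset.sum_coe_sort K (fun k => mbd Φ k (|(ξ.1 : ℝ)| * |(ξ.2 : ℝ)|))
    rw [this]
    exact msum h1 h2 h3 K hv
  calc ‖p ξ‖ ^ 2 * ∑ k : K, mbd Φ k (|(ξ.1 : ℝ)| * |(ξ.2 : ℝ)|)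
      ≤ ‖p ξ‖ ^ 2 * (1000 * D ^ 2) := mul_le_mul_of_nonneg_left e3 (by positivity)
    _ = 1000 * D ^ 2 * ‖p ξ‖ ^ 2 := by ring

theorem disc_offU {Φ : ℝ → ℂ} {D : ℝ} (h1 : ∀ s, 0 ≤ s → ‖Φ s‖ ≤ D)
    (h2 : ∀ s, 0 ≤ s → s * ‖Φ s‖ ≤ D) (h3 : ∀ s, 0 ≤ s → ‖Φ s - Φ 0‖ ≤ D * s) (A : ℕ)
    (K : Finset ℤ) {Λ : ℝ} (hΛ1 : 1 ≤ Λ) (hΛ : CoreBound Λ)
    (F : Finset (ℤ × ℤ)) (hF : ∀ ξ ∈ F, 2 * |ξ.1| < 2 ^ A ∧ 2 * |ξ.2| < 2 ^ A)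
    (hF0 : ∀ ξ ∈ F, ξ.1 ≠ 0 ∧ ξ.2 ≠ 0) (p : ℤ × ℤ → ℂ) :
    av2 (fun x y : Bits A => (⨆ k : K, ‖∑ ξ ∈ F,
        Φ ((ξ.1 : ℝ) ^ 2 * (ξ.2 : ℝ) ^ 2 / 2 ^ (k : ℤ)) * p ξ * (ch ξ.1 x * ch ξ.2 y)‖) ^ 2) ≤
      10 ^ 4 * D ^ 2 * Λ * ∑ ξ ∈ F, ‖p ξ‖ ^ 2 := by
  have hD : 0 ≤ D := (norm_nonneg _).trans (h1 0 le_rfl)
  set P : ℝ := ∑ ξ ∈ F, ‖p ξ‖ ^ 2 with hP
  have hP0 : 0 ≤ P := Finset.sum_nonneg fun ξ _ => by positivity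
  set G : Bits A → Bits A → ℝ := fun x y : Bits A => (⨆ k : K, ‖∑ ξ ∈ F,
        Φ ((ξ.1 : ℝ) ^ 2 * (ξ.2 : ℝ) ^ 2 / 2 ^ (k : ℤ)) * p ξ * (ch ξ.1 x * ch ξ.2 y)‖) ^ 2 with hG
  have key : ∀ a b : Bits A, av2 G ≤ 2 * D ^ 2 * (Λ * P) +
      2 * av2 (fun x y : Bits A => ∑ k : K,
      ‖∑ ξ ∈ F, (p ξ * DiscB_u Φ k ξ x y) * (ch ξ.1 a * ch ξ.2 b)‖ ^ 2) := by
    intro a b
    obtain ⟨σ1, hσ1⟩ := exists_shift a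
    obtain ⟨σ2, hσ2⟩ := exists_shift b
    set q : ℤ × ℤ → ℂ := fun ξ => p ξ * (ch ξ.1 a * ch ξ.2 b) with hq
    set f : Bits A → Bits A → ℂ := fun x y => ∑ ξ ∈ F, q ξ * (ch ξ.1 x * ch ξ.2 y) with hf
    have hcore := coreCU f (K.image jk) hΛ1 hΛ
    have hpar : av2 (fun x y => ‖f x y‖ ^ 2) = P := by
      rw [hf]
      rw [parseval F hF q, hP]
      refine Finset.sum_congr rfl fun ξ _ => ?_
      rw [hq]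
      simp only [norm_mul, norm_ch, mul_one]
    rw [hpar] at hcore
    rw [← DiscB_shift σ1 σ2 G]
    have hpt : ∀ x y : Bits A, G (σ1 x) (σ2 y) ≤
        2 * D ^ 2 * (⨆ j : K.image jk, ‖SC f j x y‖) ^ 2 + 2 * ∑ k : K,
        ‖∑ ξ ∈ F, (p ξ * DiscB_u Φ k ξ x y) * (ch ξ.1 a * ch ξ.2 b)‖ ^ 2 := by
      intro x y
      set S : ℝ := ⨆ j : K.image jk, ‖SC f j x y‖ with hS
      have hS0 : 0 ≤ S := Real.iSup_nonneg fun j => norm_nonneg _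
      have hle : ∀ k : K, ‖SC f (jk k) x y‖ ≤ S := by
        intro k
        have hmem : jk (k : ℤ) ∈ K.image jk := Finset.mem_image_of_mem _ k.2
        exact le_ciSup (f := fun j : K.image jk => ‖SC f j x y‖)
          (Set.finite_range _).bddAbove ⟨jk k, hmem⟩
      have := DiscB_ptw (ι := K) (fun k => ∑ ξ ∈ F,
          Φ ((ξ.1 : ℝ) ^ 2 * (ξ.2 : ℝ) ^ 2 / 2 ^ (k : ℤ)) * p ξ *
            (ch ξ.1 (σ1 x) * ch ξ.2 (σ2 y)))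
        (fun k => Φ 0 * SC f (jk k) x y)
        (fun k => ∑ ξ ∈ F, (p ξ * DiscB_u Φ k ξ x y) * (ch ξ.1 a * ch ξ.2 b))
        (M := D * S) (mul_nonneg hD hS0) ?_ ?_
      · refine this.trans (le_of_eq ?_)
        ring
      · intro k
        have hsum : SC f (jk k) x y =
            ∑ ξ ∈ F, q ξ * SC (fun x y => ch ξ.1 x * ch ξ.2 y) (jk k) x y :=
          SC_sum F q (fun ξ x y => ch ξ.1 x * ch ξ.2 y) (jk k) x y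
        rw [hsum, Finset.mul_sum, ← Finset.sum_add_distrib]
        refine Finset.sum_congr rfl fun ξ _ => ?_
        rw [hσ1, hσ2, hq]
        unfold DiscB_u
        ring
      · intro k
        rw [norm_mul]
        exact mul_le_mul (h1 0 le_rfl) (hle k) (norm_nonneg _) hD
    refine (av2_mono hpt).trans ?_
    rw [av2_add, av2_const_mul, av2_const_mul]
    refine add_le_add (mul_le_mul_of_nonneg_left hcore (by positivity)) le_rfl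
  have h4 := DiscB_second h1 h2 h3 A K F hF hF0 p
  have h5 : av2 G ≤ 2 * D ^ 2 * (Λ * P) + 2 * (1000 * D ^ 2 * P) := by
    have h6 : av2 (fun _ _ : Bits A => av2 G) = av2 G := av2_const _
    rw [← h6]
    refine (av2_mono (f := fun _ _ : Bits A => av2 G) key).trans ?_
    rw [av2_add, av2_const, av2_const_mul]
    linarith
  have hDP : 0 ≤ D ^ 2 * P := mul_nonneg (sq_nonneg D) hP0
  have hx := mul_le_mul_of_nonneg_left hΛ1 hDP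
  nlinarith [hx]

theorem discBU {Φ : ℝ → ℂ} {D : ℝ} (h1 : ∀ s, 0 ≤ s → ‖Φ s‖ ≤ D)
    (h2 : ∀ s, 0 ≤ s → s * ‖Φ s‖ ≤ D) (h3 : ∀ s, 0 ≤ s → ‖Φ s - Φ 0‖ ≤ D * s) (A : ℕ)
    (K : Finset ℤ) {Λ : ℝ} (hΛ1 : 1 ≤ Λ) (hΛ : CoreBound Λ)
    (F : Finset (ℤ × ℤ)) (hF : ∀ ξ ∈ F, 2 * |ξ.1| < 2 ^ A ∧ 2 * |ξ.2| < 2 ^ A)
    (p : ℤ × ℤ → ℂ) :
    av2 (fun x y : Bits A => (⨆ k : K, ‖∑ ξ ∈ F,
        Φ ((ξ.1 : ℝ) ^ 2 * (ξ.2 : ℝ) ^ 2 / 2 ^ (k : ℤ)) * p ξ * (ch ξ.1 x * ch ξ.2 y)‖) ^ 2) ≤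
      10 ^ 5 * D ^ 2 * Λ * ∑ ξ ∈ F, ‖p ξ‖ ^ 2 := by
  classical
  have hD : 0 ≤ D := (norm_nonneg _).trans (h1 0 le_rfl)
  set F0 : Finset (ℤ × ℤ) := F.filter (fun ξ => ¬ (ξ.1 ≠ 0 ∧ ξ.2 ≠ 0)) with hF0
  set F1 : Finset (ℤ × ℤ) := F.filter (fun ξ => ξ.1 ≠ 0 ∧ ξ.2 ≠ 0) with hF1
  have hoff := disc_offU h1 h2 h3 A K hΛ1 hΛ F1
    (fun ξ hξ => hF ξ (Finset.mem_of_mem_filter ξ hξ)) (fun ξ hξ => (Finset.mem_filter.1 hξ).2) p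
  have hpar := parseval (A := A) F0 (fun ξ hξ => hF ξ (Finset.mem_of_mem_filter ξ hξ)) p
  have hsplit : ∑ ξ ∈ F, ‖p ξ‖ ^ 2 = ∑ ξ ∈ F1, ‖p ξ‖ ^ 2 + ∑ ξ ∈ F0, ‖p ξ‖ ^ 2 :=
    (Finset.sum_filter_add_sum_filter_not F (fun ξ => ξ.1 ≠ 0 ∧ ξ.2 ≠ 0) _).symm
  set P0 : ℝ := ∑ ξ ∈ F0, ‖p ξ‖ ^ 2 with hP0
  set P1 : ℝ := ∑ ξ ∈ F1, ‖p ξ‖ ^ 2 with hP1
  have hP00 : 0 ≤ P0 := Finset.sum_nonneg fun ξ _ => by positivity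
  have hP10 : 0 ≤ P1 := Finset.sum_nonneg fun ξ _ => by positivity
  have hpt : ∀ x y : Bits A, (⨆ k : K, ‖∑ ξ ∈ F,
        Φ ((ξ.1 : ℝ) ^ 2 * (ξ.2 : ℝ) ^ 2 / 2 ^ (k : ℤ)) * p ξ * (ch ξ.1 x * ch ξ.2 y)‖) ^ 2 ≤
      2 * (⨆ k : K, ‖∑ ξ ∈ F1,
        Φ ((ξ.1 : ℝ) ^ 2 * (ξ.2 : ℝ) ^ 2 / 2 ^ (k : ℤ)) * p ξ * (ch ξ.1 x * ch ξ.2 y)‖) ^ 2 +
      2 * D ^ 2 * ‖∑ ξ ∈ F0, p ξ * (ch ξ.1 x * ch ξ.2 y)‖ ^ 2 := by
    intro x y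
    set S : ℝ := ⨆ k : K, ‖∑ ξ ∈ F1,
        Φ ((ξ.1 : ℝ) ^ 2 * (ξ.2 : ℝ) ^ 2 / 2 ^ (k : ℤ)) * p ξ * (ch ξ.1 x * ch ξ.2 y)‖ with hS
    set T : ℝ := ‖∑ ξ ∈ F0, p ξ * (ch ξ.1 x * ch ξ.2 y)‖ with hT
    have hS0 : 0 ≤ S := Real.iSup_nonneg fun j => norm_nonneg _
    have hT0 : 0 ≤ T := norm_nonneg _
    have hb : (⨆ k : K, ‖∑ ξ ∈ F,
        Φ ((ξ.1 : ℝ) ^ 2 * (ξ.2 : ℝ) ^ 2 / 2 ^ (k : ℤ)) * p ξ * (ch ξ.1 x * ch ξ.2 y)‖) ≤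
        S + D * T := by
      refine Real.iSup_le (fun k => ?_) (by positivity)
      have e0 : ∑ ξ ∈ F0,
          Φ ((ξ.1 : ℝ) ^ 2 * (ξ.2 : ℝ) ^ 2 / 2 ^ ((k : ℤ))) * p ξ * (ch ξ.1 x * ch ξ.2 y) =
          Φ 0 * ∑ ξ ∈ F0, p ξ * (ch ξ.1 x * ch ξ.2 y) := by
        rw [Finset.mul_sum]
        refine Finset.sum_congr rfl fun ξ hξ => ?_
        have h0 : (ξ.1 : ℝ) ^ 2 * (ξ.2 : ℝ) ^ 2 / 2 ^ ((k : ℤ)) = 0 := by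
          have := (Finset.mem_filter.1 hξ).2
          rw [not_and_or, not_not, not_not] at this
          rcases this with h | h <;> simp [h]
        rw [h0]
        ring
      have e1 : ∑ ξ ∈ F,
          Φ ((ξ.1 : ℝ) ^ 2 * (ξ.2 : ℝ) ^ 2 / 2 ^ ((k : ℤ))) * p ξ * (ch ξ.1 x * ch ξ.2 y) =
          (∑ ξ ∈ F1,
          Φ ((ξ.1 : ℝ) ^ 2 * (ξ.2 : ℝ) ^ 2 / 2 ^ ((k : ℤ))) * p ξ * (ch ξ.1 x * ch ξ.2 y)) +
          Φ 0 * ∑ ξ ∈ F0, p ξ * (ch ξ.1 x * ch ξ.2 y) := by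
        rw [← e0]
        exact (Finset.sum_filter_add_sum_filter_not F (fun ξ => ξ.1 ≠ 0 ∧ ξ.2 ≠ 0) _).symm
      rw [e1]
      refine (norm_add_le _ _).trans (add_le_add ?_ ?_)
      · exact le_ciSup (f := fun k : K => ‖∑ ξ ∈ F1,
          Φ ((ξ.1 : ℝ) ^ 2 * (ξ.2 : ℝ) ^ 2 / 2 ^ ((k : ℤ))) * p ξ * (ch ξ.1 x * ch ξ.2 y)‖)
          (Set.finite_range _).bddAbove k
      · rw [norm_mul]
        exact mul_le_mul_of_nonneg_right (h1 0 le_rfl) (norm_nonneg _)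
    have h0 : 0 ≤ (⨆ k : K, ‖∑ ξ ∈ F,
        Φ ((ξ.1 : ℝ) ^ 2 * (ξ.2 : ℝ) ^ 2 / 2 ^ (k : ℤ)) * p ξ * (ch ξ.1 x * ch ξ.2 y)‖) :=
      Real.iSup_nonneg fun j => norm_nonneg _
    have h5 := pow_le_pow_left₀ h0 hb 2
    nlinarith [sq_nonneg (S - D * T)]
  refine (av2_mono hpt).trans ?_
  rw [av2_add, av2_const_mul, av2_const_mul, hpar, hsplit]
  have hDP : 0 ≤ D ^ 2 * P0 := mul_nonneg (sq_nonneg D) hP00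
  have hDP1 : 0 ≤ D ^ 2 * P1 := mul_nonneg (sq_nonneg D) hP10
  have hx1 := mul_le_mul_of_nonneg_left hΛ1 hDP
  have hx2 := mul_le_mul_of_nonneg_left hΛ1 hDP1
  have hx3 : 0 ≤ D ^ 2 * P1 * Λ := mul_nonneg hDP1 (by linarith)
  nlinarith [hoff, hx1, hx2]

private theorem DiscZ_card (A : ℕ) : (Fintype.card (Bits A) : ℝ) = 2 ^ A := by
  rw [show Fintype.card (Bits A) = 2 ^ A by simp [Bits]]
  push_cast
  rfl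

private theorem DiscZ_av2 {A : ℕ} (e : Bits A ≃ Fin (2 ^ A)) (H : ℕ → ℕ → ℝ) :
    ∑ s ∈ range (2 ^ A), ∑ t ∈ range (2 ^ A), H s t =
      4 ^ A * av2 (fun x y : Bits A => H (e x) (e y)) := by
  have h1 : ∑ s ∈ range (2 ^ A), ∑ t ∈ range (2 ^ A), H s t =
      ∑ x : Bits A, ∑ y : Bits A, H (e x) (e y) := by
    rw [Finset.sum_range, ← Equiv.sum_comp e]
    refine Finset.sum_congr rfl fun x _ => ?_
    rw [Finset.sum_range, ← Equiv.sum_comp e]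
  rw [h1]
  unfold av2 av
  rw [← Finset.sum_div, DiscZ_card, div_div]
  have h2 : (2 : ℝ) ^ A * 2 ^ A = 4 ^ A := by
    rw [← mul_pow]
    norm_num
  have h3 : (4 : ℝ) ^ A ≠ 0 := by positivity
  rw [h2, mul_div_cancel₀ _ h3]

private theorem DiscZ_norm (A : ℕ) (m : ℤ) :
    ‖Complex.exp (2 * Real.pi * Complex.I * (m : ℂ) / 2 ^ A)‖ = 1 := by
  have h : (2 * Real.pi * Complex.I * (m : ℂ) / 2 ^ A : ℂ) =
      ((2 * Real.pi * (m : ℝ) / 2 ^ A : ℝ) : ℂ) * Complex.I := by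
    push_cast
    ring
  rw [h, Complex.norm_exp_ofReal_mul_I]

theorem discZU {Φ : ℝ → ℂ} {D : ℝ} (h1 : ∀ s, 0 ≤ s → ‖Φ s‖ ≤ D)
    (h2 : ∀ s, 0 ≤ s → s * ‖Φ s‖ ≤ D) (h3 : ∀ s, 0 ≤ s → ‖Φ s - Φ 0‖ ≤ D * s) (A : ℕ)
    (K : Finset ℤ) {Λ : ℝ} (hΛ1 : 1 ≤ Λ) (hΛ : CoreBound Λ)
    (F : Finset (ℤ × ℤ)) (hF : ∀ ξ ∈ F, 2 * |ξ.1| < 2 ^ A ∧ 2 * |ξ.2| < 2 ^ A)
    (p : ℤ × ℤ → ℂ) (s0 t0 : ℤ) :
    ∑ s ∈ range (2 ^ A), ∑ t ∈ range (2 ^ A), (⨆ k : K, ‖∑ ξ ∈ F,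
        Φ ((ξ.1 : ℝ) ^ 2 * (ξ.2 : ℝ) ^ 2 / 2 ^ (k : ℤ)) * p ξ *
          Complex.exp (2 * Real.pi * Complex.I *
            ((ξ.1 : ℂ) * (s + s0) + (ξ.2 : ℂ) * (t + t0)) / 2 ^ A)‖) ^ 2 ≤
      10 ^ 5 * D ^ 2 * Λ * 4 ^ A * ∑ ξ ∈ F, ‖p ξ‖ ^ 2 := by
  obtain ⟨e, he⟩ := exists_pos A
  let p' : ℤ × ℤ → ℂ := fun ξ => p ξ *
    Complex.exp (2 * Real.pi * Complex.I * (((ξ.1 * s0 + ξ.2 * t0 : ℤ)) : ℂ) / 2 ^ A)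
  have hp' : ∀ ξ, ‖p' ξ‖ = ‖p ξ‖ := fun ξ => by
    show ‖p ξ * Complex.exp _‖ = _
    rw [norm_mul, DiscZ_norm, mul_one]
  have hB := discBU h1 h2 h3 A K hΛ1 hΛ F hF p'
  have hP : ∑ ξ ∈ F, ‖p' ξ‖ ^ 2 = ∑ ξ ∈ F, ‖p ξ‖ ^ 2 :=
    Finset.sum_congr rfl fun ξ _ => by rw [hp']
  rw [hP] at hB
  rw [DiscZ_av2 e (fun s t => (⨆ k : K, ‖∑ ξ ∈ F,
        Φ ((ξ.1 : ℝ) ^ 2 * (ξ.2 : ℝ) ^ 2 / 2 ^ (k : ℤ)) * p ξ *
          Complex.exp (2 * Real.pi * Complex.I *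
            ((ξ.1 : ℂ) * (s + s0) + (ξ.2 : ℂ) * (t + t0)) / 2 ^ A)‖) ^ 2)]
  have hcongr : av2 (fun x y : Bits A => (⨆ k : K, ‖∑ ξ ∈ F,
        Φ ((ξ.1 : ℝ) ^ 2 * (ξ.2 : ℝ) ^ 2 / 2 ^ (k : ℤ)) * p ξ *
          Complex.exp (2 * Real.pi * Complex.I *
            ((ξ.1 : ℂ) * (((e x : ℕ) : ℂ) + s0) + (ξ.2 : ℂ) * (((e y : ℕ) : ℂ) + t0)) /
              2 ^ A)‖) ^ 2) =
      av2 (fun x y : Bits A => (⨆ k : K, ‖∑ ξ ∈ F,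
        Φ ((ξ.1 : ℝ) ^ 2 * (ξ.2 : ℝ) ^ 2 / 2 ^ (k : ℤ)) * p' ξ * (ch ξ.1 x * ch ξ.2 y)‖) ^ 2) := by
    refine av2_congr fun x y => ?_
    congr 1
    refine iSup_congr fun k => ?_
    congr 1
    refine Finset.sum_congr rfl fun ξ _ => ?_
    show _ = _ * (p ξ * Complex.exp _) * (ch ξ.1 x * ch ξ.2 y)
    rw [he, he, ← Complex.exp_add]
    rw [show ∀ a b c d : ℂ, a * (b * c) * d = a * b * (c * d) from fun a b c d => by ring,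
      ← Complex.exp_add]
    congr 2
    push_cast
    ring
  rw [hcongr]
  calc 4 ^ A * _ ≤ 4 ^ A * (10 ^ 5 * D ^ 2 * Λ * ∑ ξ ∈ F, ‖p ξ‖ ^ 2) :=
        mul_le_mul_of_nonneg_left hB (by positivity)
    _ = 10 ^ 5 * D ^ 2 * Λ * 4 ^ A * ∑ ξ ∈ F, ‖p ξ‖ ^ 2 := by ring

theorem lim_stepU {Φ : ℝ → ℂ} {D : ℝ} (h1 : ∀ s, 0 ≤ s → ‖Φ s‖ ≤ D)
    (h2 : ∀ s, 0 ≤ s → s * ‖Φ s‖ ≤ D) (h3 : ∀ s, 0 ≤ s → ‖Φ s - Φ 0‖ ≤ D * s)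
    (K : Finset ℤ) {Λ : ℝ} (hΛ1 : 1 ≤ Λ) (hΛ : CoreBound Λ)
    {ψ : ℝ × ℝ → ℂ} {R : ℝ} (hR : 0 ≤ R) (hψ : ∀ ξ, ψ ξ ≠ 0 → |ξ.1| ≤ R ∧ |ξ.2| ≤ R)
    (H : ℕ) (hH : 1 ≤ H) (hHR : 2 * R < 2 ^ H) :
    ∫⁻ x in box H, ENNReal.ofReal ((⨆ k : K,
        ‖fd ((1 / 2) ^ H) (fun ξ => sy Φ (2 ^ (k : ℤ)) ξ * ψ ξ) (rnd ((1 / 2) ^ H) x)‖) ^ 2) ≤
      ENNReal.ofReal (10 ^ 5 * D ^ 2 * Λ *
        ∫ ξ : ℝ × ℝ, ‖ψ (rnd ((1 / 2) ^ H) ξ)‖ ^ 2) := by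
  classical
  obtain ⟨H, rfl⟩ : ∃ H', H = H' + 1 := ⟨H - 1, by omega⟩
  have hpos : (0 : ℝ) < (1 / 2) ^ (H + 1) := by positivity
  have hmul : (1 / 2 : ℝ) ^ (H + 1) * 2 ^ (H + 1) = 1 := by
    rw [← mul_pow]
    norm_num
  set B : ℤ := ⌊R * 2 ^ (H + 1)⌋ with hB
  set F : Finset (ℤ × ℤ) := (Finset.Icc (-B) B) ×ˢ (Finset.Icc (-B) B) with hF
  set h : ℝ := (1 / 2) ^ (H + 1) with hh
  have hout : ∀ z : ℤ × ℤ, z ∉ F → ψ (h * z.1, h * z.2) = 0 := by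
    intro z hz
    by_contra hne
    apply hz
    obtain ⟨e1, e2⟩ := hψ _ hne
    have key : ∀ a : ℤ, |h * (a : ℝ)| ≤ R → a ∈ Finset.Icc (-B) B := by
      intro a ha
      have h5 : |(a : ℝ)| ≤ R * 2 ^ (H + 1) := by
        rw [abs_mul, abs_of_pos hpos] at ha
        calc |(a : ℝ)| = (h * 2 ^ (H + 1)) * |(a : ℝ)| := by rw [hmul, one_mul]
          _ = (h * |(a : ℝ)|) * 2 ^ (H + 1) := by ring
          _ ≤ R * 2 ^ (H + 1) := mul_le_mul_of_nonneg_right ha (by positivity)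
      have h6 := abs_le.1 h5
      rw [Finset.mem_Icc]
      constructor
      · have h7 : -a ≤ B := Int.le_floor.2 (by push_cast; linarith [h6.1])
        linarith
      · exact Int.le_floor.2 h6.2
    exact Finset.mem_product.2 ⟨key _ e1, key _ e2⟩
  have hfd : ∀ (k : ℤ) (x : ℝ × ℝ), fd h (fun ξ => sy Φ (2 ^ k) ξ * ψ ξ) x =
      (h ^ 2) • ∑ z ∈ F, (sy Φ (2 ^ k) (h * z.1, h * z.2) * ψ (h * z.1, h * z.2)) *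
        ex x (h * z.1, h * z.2) := by
    intro k x
    exact integral_step hpos F (fun z : ℤ × ℤ =>
      (sy Φ (2 ^ k) (h * z.1, h * z.2) * ψ (h * z.1, h * z.2)) * ex x (h * z.1, h * z.2))
      (fun z hz => by simp only [hout z hz, mul_zero, zero_mul])
  have hint : ∫ ξ : ℝ × ℝ, ‖ψ (rnd h ξ)‖ ^ 2 =
      (h ^ 2) • ∑ z ∈ F, ‖ψ (h * z.1, h * z.2)‖ ^ 2 := by
    exact integral_step hpos F (fun z : ℤ × ℤ => ‖ψ (h * z.1, h * z.2)‖ ^ 2)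
      (fun z hz => by simp only [hout z hz, norm_zero]; norm_num)
  set K' : Finset ℤ := K.image (fun k => k + 4 * ((H + 1 : ℕ) : ℤ)) with hK'
  have hFb : ∀ ξ ∈ F, 2 * |ξ.1| < 2 ^ (2 * (H + 1)) ∧ 2 * |ξ.2| < 2 ^ (2 * (H + 1)) := by
    intro ξ hξ
    rw [hF, Finset.mem_product] at hξ
    have hBr : 2 * B < 2 ^ (2 * (H + 1)) := by
      have h5 : ((2 * B : ℤ) : ℝ) < ((2 ^ (2 * (H + 1)) : ℤ) : ℝ) := by
        push_cast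
        have h6 : (B : ℝ) ≤ R * 2 ^ (H + 1) := Int.floor_le _
        have h7 : (2 : ℝ) ^ (2 * (H + 1)) = 2 ^ (H + 1) * 2 ^ (H + 1) := by
          rw [← pow_add]
          congr 1
          ring
        rw [h7]
        have h8 : (2 * R) * 2 ^ (H + 1) < 2 ^ (H + 1) * 2 ^ (H + 1) :=
          mul_lt_mul_of_pos_right hHR (by positivity)
        linarith
      exact_mod_cast h5
    have key : ∀ a : ℤ, a ∈ Finset.Icc (-B) B → 2 * |a| < 2 ^ (2 * (H + 1)) := by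
      intro a ha
      rw [Finset.mem_Icc] at ha
      have : |a| ≤ B := abs_le.2 ha
      linarith
    exact ⟨key _ hξ.1, key _ hξ.2⟩
  set N : ℕ := 2 ^ (2 * H + 1) with hN
  have hNN : 2 * N = 2 ^ (2 * (H + 1)) := by
    rw [hN, ← pow_succ']
    congr 1
  have hd := discZU h1 h2 h3 (2 * (H + 1)) K' hΛ1 hΛ F hFb
    (fun z => ((h : ℂ) ^ 2) * ψ (h * z.1, h * z.2)) (-(N : ℤ)) (-(N : ℤ))
  set J : ℤ → ℤ → ℝ := fun s t => ⨆ k : K,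
    ‖fd h (fun ξ => sy Φ (2 ^ (k : ℤ)) ξ * ψ ξ) (h * s, h * t)‖ with hJ
  have hJ0 : ∀ s t, 0 ≤ J s t := fun s t => Real.iSup_nonneg fun _ => norm_nonneg _
  have hterm : ∀ (k : ℤ) (s t : ℕ), fd h (fun ξ => sy Φ (2 ^ k) ξ * ψ ξ)
      (h * (((s : ℤ) + -(N : ℤ) : ℤ) : ℝ), h * (((t : ℤ) + -(N : ℤ) : ℤ) : ℝ)) =
      ∑ ξ ∈ F, Φ ((ξ.1 : ℝ) ^ 2 * (ξ.2 : ℝ) ^ 2 / 2 ^ (k + 4 * ((H + 1 : ℕ) : ℤ))) *
        (((h : ℂ) ^ 2) * ψ (h * ξ.1, h * ξ.2)) *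
          Complex.exp (2 * Real.pi * Complex.I *
            ((ξ.1 : ℂ) * (s + ((-(N : ℤ) : ℤ) : ℂ)) + (ξ.2 : ℂ) * (t + ((-(N : ℤ) : ℤ) : ℂ))) /
              2 ^ (2 * (H + 1))) := by
    intro k s t
    rw [hfd, Finset.smul_sum]
    refine Finset.sum_congr rfl fun ξ _ => ?_
    rw [hh, limB_sy, limB_ex, Complex.real_smul]
    push_cast
    ring
  have hA : ∑ s ∈ Finset.range (2 * N), ∑ t ∈ Finset.range (2 * N),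
      J ((s : ℤ) + -(N : ℤ)) ((t : ℤ) + -(N : ℤ)) ^ 2 ≤
      10 ^ 5 * D ^ 2 * Λ * 4 ^ (2 * (H + 1)) *
        ∑ ξ ∈ F, ‖((h : ℂ) ^ 2) * ψ (h * ξ.1, h * ξ.2)‖ ^ 2 := by
    refine le_trans ?_ hd
    rw [hNN]
    refine Finset.sum_le_sum fun s _ => Finset.sum_le_sum fun t _ => ?_
    refine pow_le_pow_left₀ (hJ0 _ _) ?_ 2
    refine Real.iSup_le (fun k => ?_) (Real.iSup_nonneg fun _ => norm_nonneg _)
    rw [hterm k s t]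
    exact le_ciSup (f := fun k' : K' => ‖∑ ξ ∈ F,
        Φ ((ξ.1 : ℝ) ^ 2 * (ξ.2 : ℝ) ^ 2 / 2 ^ (k' : ℤ)) *
          (((h : ℂ) ^ 2) * ψ (h * ξ.1, h * ξ.2)) *
          Complex.exp (2 * Real.pi * Complex.I *
            ((ξ.1 : ℂ) * (s + ((-(N : ℤ) : ℤ) : ℂ)) + (ξ.2 : ℂ) * (t + ((-(N : ℤ) : ℤ) : ℂ))) /
              2 ^ (2 * (H + 1)))‖) (Set.finite_range _).bddAbove
      ⟨(k : ℤ) + 4 * ((H + 1 : ℕ) : ℤ), Finset.mem_image_of_mem _ k.2⟩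
  set Z : Finset (ℤ × ℤ) := (Finset.Ico (-(N : ℤ)) N) ×ˢ (Finset.Ico (-(N : ℤ)) N) with hZ
  have hmem : ∀ x : ℝ × ℝ, x ∈ box (H + 1) ↔ (⌊x.1 / h⌋, ⌊x.2 / h⌋) ∈ Z := by
    intro x
    rw [hZ, Finset.mem_product]
    exact and_congr (limB_box H x.1) (limB_box H x.2)
  have hbm : MeasurableSet (box (H + 1)) :=
    measurableSet_Ico.prod measurableSet_Ico
  set G : ℤ × ℤ → ℝ≥0∞ := fun z => if z ∈ Z then ENNReal.ofReal (J z.1 z.2 ^ 2) else 0 with hG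
  have hL : ∫⁻ x in box (H + 1), ENNReal.ofReal ((⨆ k : K,
        ‖fd h (fun ξ => sy Φ (2 ^ (k : ℤ)) ξ * ψ ξ) (rnd h x)‖) ^ 2) =
      ∫⁻ x : ℝ × ℝ, G (⌊x.1 / h⌋, ⌊x.2 / h⌋) := by
    rw [← lintegral_indicator hbm]
    refine lintegral_congr fun x => ?_
    by_cases hx : x ∈ box (H + 1)
    · rw [Set.indicator_of_mem hx, hG]
      simp only
      rw [if_pos ((hmem x).1 hx)]
      rfl
    · rw [Set.indicator_of_notMem hx, hG]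
      simp only
      rw [if_neg (fun h0 => hx ((hmem x).2 h0))]
  rw [hL, lintegral_step hpos, tsum_eq_sum (s := Z) (fun z hz => if_neg hz)]
  have hS : ∑ z ∈ Z, G z = ENNReal.ofReal (∑ z ∈ Z, J z.1 z.2 ^ 2) := by
    rw [ENNReal.ofReal_sum_of_nonneg fun z _ => sq_nonneg _]
    exact Finset.sum_congr rfl fun z hz => if_pos hz
  rw [hS, ← ENNReal.ofReal_mul (by positivity)]
  refine ENNReal.ofReal_le_ofReal ?_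
  have hS2 : ∑ z ∈ Z, J z.1 z.2 ^ 2 = ∑ s ∈ Finset.range (2 * N), ∑ t ∈ Finset.range (2 * N),
      J ((s : ℤ) + -(N : ℤ)) ((t : ℤ) + -(N : ℤ)) ^ 2 := by
    rw [hZ, Finset.sum_product, limB_shift N (fun a => ∑ b ∈ Finset.Ico (-(N : ℤ)) N, J a b ^ 2)]
    refine Finset.sum_congr rfl fun s _ => ?_
    exact limB_shift N (fun b => J ((s : ℤ) + -(N : ℤ)) b ^ 2)
  rw [hS2, hint, smul_eq_mul]
  have hn : ∀ ξ : ℤ × ℤ, ‖((h : ℂ) ^ 2) * ψ (h * ξ.1, h * ξ.2)‖ ^ 2 =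
      h ^ 4 * ‖ψ (h * ξ.1, h * ξ.2)‖ ^ 2 := by
    intro ξ
    rw [norm_mul, norm_pow, Complex.norm_real, Real.norm_of_nonneg hpos.le]
    ring
  simp only [hn] at hA
  rw [← Finset.mul_sum] at hA
  have h4 : (4 : ℝ) ^ (2 * (H + 1)) * h ^ 4 = 1 := by
    have e1 : (4 : ℝ) ^ (2 * (H + 1)) = (2 ^ (H + 1)) ^ 4 := by
      rw [show (4 : ℝ) = 2 ^ 2 by norm_num, ← pow_mul, ← pow_mul]
      congr 1
      ring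
    rw [e1, ← mul_pow, mul_comm, hmul, one_pow]
  calc h ^ 2 * ∑ s ∈ Finset.range (2 * N), ∑ t ∈ Finset.range (2 * N),
      J ((s : ℤ) + -(N : ℤ)) ((t : ℤ) + -(N : ℤ)) ^ 2
      ≤ h ^ 2 * (10 ^ 5 * D ^ 2 * Λ * 4 ^ (2 * (H + 1)) *
        (h ^ 4 * ∑ ξ ∈ F, ‖ψ (h * ξ.1, h * ξ.2)‖ ^ 2)) :=
        mul_le_mul_of_nonneg_left hA (by positivity)
    _ = 10 ^ 5 * D ^ 2 * Λ * ((4 ^ (2 * (H + 1)) * h ^ 4) *
        (h ^ 2 * ∑ ξ ∈ F, ‖ψ (h * ξ.1, h * ξ.2)‖ ^ 2)) := by ring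
    _ = _ := by rw [h4, one_mul]

theorem lim_mainU {Φ : ℝ → ℂ} (hΦ : Continuous Φ) {D : ℝ} (h1 : ∀ s, 0 ≤ s → ‖Φ s‖ ≤ D)
    (h2 : ∀ s, 0 ≤ s → s * ‖Φ s‖ ≤ D) (h3 : ∀ s, 0 ≤ s → ‖Φ s - Φ 0‖ ≤ D * s)
    (K : Finset ℤ) {Λ : ℝ} (hΛ1 : 1 ≤ Λ) (hΛ : CoreBound Λ)
    {ψ : ℝ × ℝ → ℂ} (hψ : Continuous ψ) (hc : HasCompactSupport ψ) :
    ∫⁻ x : ℝ × ℝ, ENNReal.ofReal ((⨆ k : K,
        ‖fi (fun ξ => sy Φ (2 ^ (k : ℤ)) ξ * ψ ξ) x‖) ^ 2) ≤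
      ENNReal.ofReal (10 ^ 5 * D ^ 2 * Λ * ∫ ξ : ℝ × ℝ, ‖ψ ξ‖ ^ 2) := by
  classical
  set h : ℕ → ℝ := fun n => (1 / 2) ^ n with hh
  have hpos : ∀ n, 0 < h n := fun n => by positivity
  have h0 : Tendsto h atTop (𝓝 0) :=
    tendsto_pow_atTop_nhds_zero_of_lt_one (by norm_num) (by norm_num)
  -- the radius
  obtain ⟨R, hR⟩ := hc.isCompact.isBounded.subset_closedBall (0 : ℝ × ℝ)
  have hψR : ∀ ξ, ψ ξ ≠ 0 → |ξ.1| ≤ max R 0 ∧ |ξ.2| ≤ max R 0 := by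
    intro ξ hξ
    have h4 : ξ ∈ tsupport ψ := subset_tsupport ψ hξ
    have h5 := hR h4
    rw [mem_closedBall_zero_iff] at h5
    constructor
    · exact ((norm_fst_le ξ).trans h5).trans (le_max_left _ _)
    · exact ((norm_snd_le ξ).trans h5).trans (le_max_left _ _)
  -- the functions
  have hcont : ∀ k : ℤ, Continuous (fun ξ : ℝ × ℝ => sy Φ (2 ^ k) ξ * ψ ξ) := by
    intro k
    unfold sy
    refine Continuous.mul (hΦ.comp ?_) hψ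
    fun_prop
  have hcomp : ∀ k : ℤ, HasCompactSupport (fun ξ : ℝ × ℝ => sy Φ (2 ^ k) ξ * ψ ξ) := fun k =>
    hc.mul_left
  have hrnd : ∀ x : ℝ × ℝ, Tendsto (fun n => rnd (h n) x) atTop (𝓝 x) := by
    intro x
    rw [tendsto_iff_norm_sub_tendsto_zero]
    exact squeeze_zero (fun _ => norm_nonneg _) (fun n => rnd_sub_le (hpos n) x) h0
  have hfd : ∀ (k : ℤ) (x : ℝ × ℝ),
      Tendsto (fun n => fd (h n) (fun ξ => sy Φ (2 ^ k) ξ * ψ ξ) (rnd (h n) x)) atTop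
        (𝓝 (fi (fun ξ => sy Φ (2 ^ k) ξ * ψ ξ) x)) := fun k x =>
    fd_tendsto (hcont k) (hcomp k) hpos h0 (hrnd x)
  set F : ℕ → ℝ × ℝ → ℝ≥0∞ := fun n x => ENNReal.ofReal ((⨆ k : K,
        ‖fd (h n) (fun ξ => sy Φ (2 ^ (k : ℤ)) ξ * ψ ξ) (rnd (h n) x)‖) ^ 2) with hF
  have hFlim : ∀ x, Tendsto (fun n => (box n).indicator (F n) x) atTop
      (𝓝 (ENNReal.ofReal ((⨆ k : K, ‖fi (fun ξ => sy Φ (2 ^ (k : ℤ)) ξ * ψ ξ) x‖) ^ 2))) := by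
    intro x
    have h4 : Tendsto (fun n => F n x) atTop
        (𝓝 (ENNReal.ofReal ((⨆ k : K, ‖fi (fun ξ => sy Φ (2 ^ (k : ℤ)) ξ * ψ ξ) x‖) ^ 2))) := by
      simp only [hF]
      refine (ENNReal.continuous_ofReal.tendsto _).comp ?_
      refine Tendsto.pow ?_ 2
      exact limC_iSup (fun k : K => (hfd k x).norm)
    refine h4.congr' ?_
    filter_upwards [limC_mem_box x] with n hn
    rw [Set.indicator_of_mem hn]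
  have hFmeas : ∀ n, Measurable (F n) := by
    intro n
    simp only [hF]
    refine ENNReal.measurable_ofReal.comp ?_
    refine Measurable.pow_const ?_ 2
    refine Measurable.iSup (fun k => ?_)
    exact ((limC_measurable_fd (h n) (hcont k)).comp (limC_measurable_rnd (h n))).norm
  have hfatou := lintegral_liminf_le (u := (atTop : Filter ℕ)) (μ := (volume : Measure (ℝ × ℝ)))
    (fun n => (hFmeas n).indicator (limC_measurableSet_box n))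
  have hleft : ∫⁻ x : ℝ × ℝ, ENNReal.ofReal ((⨆ k : K,
        ‖fi (fun ξ => sy Φ (2 ^ (k : ℤ)) ξ * ψ ξ) x‖) ^ 2) =
      ∫⁻ x : ℝ × ℝ, liminf (fun n => (box n).indicator (F n) x) atTop := by
    refine lintegral_congr (fun x => ?_)
    exact (hFlim x).liminf_eq.symm
  rw [hleft]
  refine hfatou.trans ?_
  have hlim : Tendsto (fun n => ENNReal.ofReal (10 ^ 5 * D ^ 2 * Λ *
      ∫ ξ : ℝ × ℝ, ‖ψ (rnd (h n) ξ)‖ ^ 2)) atTop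
      (𝓝 (ENNReal.ofReal (10 ^ 5 * D ^ 2 * Λ * ∫ ξ : ℝ × ℝ, ‖ψ ξ‖ ^ 2))) := by
    refine (ENNReal.continuous_ofReal.tendsto _).comp ?_
    exact (sq_tendsto hψ hc hpos h0).const_mul _
  rw [← hlim.liminf_eq]
  refine liminf_le_liminf ?_
  have hbig : Tendsto (fun n : ℕ => (2 : ℝ) ^ n) atTop atTop :=
    tendsto_pow_atTop_atTop_of_one_lt (by norm_num)
  filter_upwards [eventually_ge_atTop 1, hbig.eventually_gt_atTop (2 * max R 0)] with n hn1 hn2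
  rw [lintegral_indicator (limC_measurableSet_box n)]
  exact lim_stepU h1 h2 h3 K hΛ1 hΛ (le_max_right _ _) hψR n hn1 hn2

theorem eu_mainU {Φ : ℝ → ℂ} (hΦ : Continuous Φ) {D : ℝ} (h1 : ∀ s, 0 ≤ s → ‖Φ s‖ ≤ D)
    (h2 : ∀ s, 0 ≤ s → s * ‖Φ s‖ ≤ D) (h3 : ∀ s, 0 ≤ s → ‖Φ s - Φ 0‖ ≤ D * s)
    (K : Finset ℤ) {Λ : ℝ} (hΛ1 : 1 ≤ Λ) (hΛ : CoreBound Λ)
    {ψ : E2 → ℂ} (hψ : Continuous ψ) (hc : HasCompactSupport ψ) :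
    ∫⁻ x : E2, ENNReal.ofReal ((⨆ k : K,
        ‖𝓕⁻ (fun ξ : E2 => symb Φ (2 ^ (k : ℤ)) ξ * ψ ξ) x‖) ^ 2) ≤
      ENNReal.ofReal (10 ^ 5 * D ^ 2 * Λ * ∫ ξ : E2, ‖ψ ξ‖ ^ 2) := by
  set g : ℝ × ℝ → ℂ := fun p => ψ (hoE.symm p) with hg
  have hgc : Continuous g := hψ.comp hoE.symm.continuous
  have hgs : HasCompactSupport g := hc.comp_homeomorph hoE.symm
  have hge : ∀ ξ : E2, g (eqE ξ) = ψ ξ := by
    intro ξ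
    rw [hg, eqE_apply, ← hoE_apply]
    simp
  have key := lim_mainU hΦ h1 h2 h3 K hΛ1 hΛ hgc hgs
  have hF : ∀ (t : ℝ) (x : E2), 𝓕⁻ (fun ξ : E2 => symb Φ t ξ * ψ ξ) x =
      fi (fun ξ => sy Φ t ξ * g ξ) (eqE x) := by
    intro t x
    rw [Real.fourierInv_eq']
    unfold fi
    rw [← eqE_pres.integral_comp' (g := fun ξ => sy Φ t ξ * g ξ * ex (eqE x) ξ)]
    refine integral_congr_ae (Filter.Eventually.of_forall fun ξ => ?_)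
    simp only [hge]
    unfold symb sy ex
    rw [eqE_apply, eqE_apply, smul_eq_mul, mul_comm]
    congr 2
    simp only [PiLp.inner_apply, Fin.sum_univ_two, RCLike.inner_apply, conj_trivial]
    push_cast
    ring
  have hL : ∫⁻ x : E2, ENNReal.ofReal ((⨆ k : K,
        ‖𝓕⁻ (fun ξ : E2 => symb Φ (2 ^ (k : ℤ)) ξ * ψ ξ) x‖) ^ 2) =
      ∫⁻ x : ℝ × ℝ, ENNReal.ofReal ((⨆ k : K,
        ‖fi (fun ξ => sy Φ (2 ^ (k : ℤ)) ξ * g ξ) x‖) ^ 2) := by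
    rw [← eqE_pres.lintegral_comp_emb eqE.measurableEmbedding]
    simp only [hF]
  have hR : ∫ ξ : E2, ‖ψ ξ‖ ^ 2 = ∫ ξ : ℝ × ℝ, ‖g ξ‖ ^ 2 := by
    rw [← eqE_pres.integral_comp' (g := fun ξ => ‖g ξ‖ ^ 2)]
    simp only [hge]
  rw [hL, hR]
  exact key

theorem maint_schwartzU {Φ : ℝ → ℂ} (hΦ : ContDiff ℝ (⊤ : ℕ∞) Φ) {D : ℝ} (hD : 0 ≤ D)
    (h1 : ∀ s, 0 ≤ s → ‖Φ s‖ ≤ D) (h2 : ∀ s, 0 ≤ s → s * ‖Φ s‖ ≤ D)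
    (h3 : ∀ s, 0 ≤ s → ‖Φ s - Φ 0‖ ≤ D * s) (K : Finset ℤ) {Λ : ℝ} (hΛ1 : 1 ≤ Λ) (hΛ : CoreBound Λ) (ψ : SchwartzMap E2 ℂ) (hψ : HasCompactSupport ψ)
    (g0 : ℤ → Lp ℂ 2 (volume : Measure E2))
    (hg0 : ∀ k, (g0 k : E2 → ℂ) =ᵐ[volume] 𝓕⁻ (fun ξ : E2 => symb Φ (2 ^ k) ξ * ψ ξ)) :
    eLpNorm (fun x => ⨆ k : K, ‖g0 k x‖) 2 (volume : Measure E2) ≤
      ENNReal.ofReal (10 ^ 3 * D * Real.sqrt Λ *
        ‖(𝓕⁻ (ψ.toLp 2) : Lp ℂ 2 (volume : Measure E2))‖) := by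
  have hnf : ‖(𝓕⁻ (ψ.toLp 2) : Lp ℂ 2 (volume : Measure E2))‖ ^ 2 = ∫ ξ : E2, ‖ψ ξ‖ ^ 2 := by
    rw [← Lp.norm_fourier_eq, FourierTransform.fourier_fourierInv_eq, maint_norm_sq]
    apply integral_congr_ae
    filter_upwards [ψ.coeFn_toLp 2 (volume : Measure E2)] with a ha
    rw [ha]
  have hcongr : (fun x => ⨆ k : K, ‖g0 k x‖) =ᵐ[volume] fun x : E2 => ⨆ k : K,
        ‖𝓕⁻ (fun ξ : E2 => symb Φ (2 ^ (k : ℤ)) ξ * ψ ξ) x‖ := by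
    have : ∀ᵐ x : E2, ∀ k : K, g0 k x = 𝓕⁻ (fun ξ : E2 => symb Φ (2 ^ (k : ℤ)) ξ * ψ ξ) x :=
      ae_all_iff.2 fun k => hg0 k
    filter_upwards [this] with x hx
    simp only [hx]
  rw [eLpNorm_congr_ae hcongr, eLpNorm_eq_lintegral_rpow_enorm_toReal (by norm_num) (by norm_num)]
  have hmain := eu_mainU hΦ.continuous h1 h2 h3 K hΛ1 hΛ ψ.continuous hψ
  have heq : ∀ x : E2, ‖(⨆ k : K, ‖𝓕⁻ (fun ξ : E2 => symb Φ (2 ^ (k : ℤ)) ξ * ψ ξ) x‖)‖ₑ ^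
      (2 : ℝ≥0∞).toReal = ENNReal.ofReal ((⨆ k : K,
        ‖𝓕⁻ (fun ξ : E2 => symb Φ (2 ^ (k : ℤ)) ξ * ψ ξ) x‖) ^ 2) := by
    intro x
    have hnn : 0 ≤ (⨆ k : K, ‖𝓕⁻ (fun ξ : E2 => symb Φ (2 ^ (k : ℤ)) ξ * ψ ξ) x‖) :=
      Real.iSup_nonneg fun _ => norm_nonneg _
    rw [Real.enorm_eq_ofReal hnn, ENNReal.ofReal_pow hnn]
    simp
  simp only [heq]
  rw [← hnf] at hmain
  refine (ENNReal.rpow_le_rpow hmain (by positivity)).trans ?_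
  rw [ENNReal.ofReal_rpow_of_nonneg (by positivity) (by positivity)]
  apply ENNReal.ofReal_le_ofReal
  have : (1 / (2 : ℝ≥0∞).toReal) = (1 / 2 : ℝ) := by simp
  rw [this, ← Real.sqrt_eq_rpow]
  apply Real.sqrt_le_iff.2
  refine ⟨by positivity, ?_⟩
  have hp : 0 ≤ D ^ 2 * Λ * ‖(𝓕⁻ (ψ.toLp 2) : Lp ℂ 2 (volume : Measure E2))‖ ^ 2 := by
    positivity
  have hsq : Real.sqrt Λ ^ 2 = Λ := Real.sq_sqrt (by linarith)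
  have e : (10 ^ 3 * D * Real.sqrt Λ * ‖(𝓕⁻ (ψ.toLp 2) : Lp ℂ 2 (volume : Measure E2))‖) ^ 2 =
      10 ^ 6 * (D ^ 2 * Λ * ‖(𝓕⁻ (ψ.toLp 2) : Lp ℂ 2 (volume : Measure E2))‖ ^ 2) := by
    rw [mul_pow, mul_pow, mul_pow, hsq]
    ring
  rw [e]
  nlinarith

theorem main_rU {Φ : ℝ → ℂ} (hΦ : ContDiff ℝ (⊤ : ℕ∞) Φ) {D : ℝ} (hD : 0 ≤ D)
    (h1 : ∀ s, 0 ≤ s → ‖Φ s‖ ≤ D) (h2 : ∀ s, 0 ≤ s → s * ‖Φ s‖ ≤ D)
    (h3 : ∀ s, 0 ≤ s → ‖Φ s - Φ 0‖ ≤ D * s) (K : Finset ℤ) {Λ : ℝ} (hΛ1 : 1 ≤ Λ) (hΛ : CoreBound Λ) (f : Lp ℂ 2 (volume : Measure E2))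
    (g : ℤ → Lp ℂ 2 (volume : Measure E2)) (hg : ∀ k ∈ K, IsT Φ (2 ^ k) f (g k)) :
    eLpNorm (fun x => ⨆ k : K, ‖g k x‖) 2 (volume : Measure E2) ≤
      ENNReal.ofReal (10 ^ 3 * D * Real.sqrt Λ * ‖f‖) := by
  apply ENNReal.le_of_forall_pos_le_add
  intro δ hδ _
  obtain ⟨A, hA⟩ : ∃ A : ℝ, A = 10 ^ 3 * D * Real.sqrt Λ := ⟨_, rfl⟩
  have hA0 : 0 ≤ A := by rw [hA]; positivity
  obtain ⟨B, hB⟩ : ∃ B : ℝ, B = A + K.card * D := ⟨_, rfl⟩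
  have hB0 : 0 ≤ B := by rw [hB]; positivity
  obtain ⟨ε, hε⟩ : ∃ ε : ℝ, ε = (δ : ℝ) / (B + 1) := ⟨_, rfl⟩
  have hδ' : (0 : ℝ) < δ := by exact_mod_cast hδ
  have hε0 : 0 < ε := by rw [hε]; positivity
  have hBε : B * ε ≤ δ := by
    rw [hε, ← mul_div_assoc, div_le_iff₀ (by positivity)]
    nlinarith
  obtain ⟨ψ, hψc, hψ⟩ := dens_schwartz f hε0
  have hex : ∀ k : ℤ, ∃ g0 : Lp ℂ 2 (volume : Measure E2), IsT Φ (2 ^ k) (𝓕⁻ (ψ.toLp 2)) g0 ∧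
      (g0 : E2 → ℂ) =ᵐ[volume] 𝓕⁻ (fun ξ : E2 => symb Φ (2 ^ k) ξ * ψ ξ) := fun k =>
    isT_schwartz hΦ (by positivity) ψ hψc
  choose g0 hg0 hg0' using hex
  have hsch := maint_schwartzU hΦ hD h1 h2 h3 K hΛ1 hΛ ψ hψc g0 hg0'
  have hsub : ∀ k ∈ K, ‖g k - g0 k‖ ≤ D * ε := fun k hk =>
    (isT_sub_le hD h1 (by positivity) (hg k hk) (hg0 k)).trans (mul_le_mul_of_nonneg_left hψ hD)
  rw [← hA] at hsch ⊢
  generalize (𝓕⁻ (ψ.toLp 2) : Lp ℂ 2 (volume : Measure E2)) = f0 at *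
  have hnf : ‖f0‖ ≤ ‖f‖ + ε := by
    have := norm_le_norm_add_norm_sub f f0
    linarith
  have step := maint_sup K (fun k => (g k : E2 → ℂ)) (fun k => (g0 k : E2 → ℂ))
    (fun k => Lp.aestronglyMeasurable (g k)) (fun k => Lp.aestronglyMeasurable (g0 k))
  have step4 : (∑ k ∈ K, eLpNorm ((g k : E2 → ℂ) - (g0 k : E2 → ℂ)) 2 (volume : Measure E2)) ≤
      ENNReal.ofReal (K.card * (D * ε)) := by
    refine (Finset.sum_le_sum (g := fun _ => ENNReal.ofReal (D * ε)) ?_).trans ?_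
    · intro k hk
      rw [maint_sub]
      exact ENNReal.ofReal_le_ofReal (hsub k hk)
    · rw [Finset.sum_const, nsmul_eq_mul, ENNReal.ofReal_mul (p := (K.card : ℝ)) (by positivity),
        ENNReal.ofReal_natCast]
  have hA' : 0 ≤ A * ‖f0‖ := by positivity
  have hA'' : 0 ≤ A * ‖f‖ := by positivity
  have hKD : 0 ≤ (K.card : ℝ) * (D * ε) := by positivity
  refine step.trans ((add_le_add hsch step4).trans ?_)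
  rw [← ENNReal.ofReal_add hA' hKD]
  have hfin : A * ‖f0‖ + K.card * (D * ε) ≤ A * ‖f‖ + δ := by
    have := mul_le_mul_of_nonneg_left hnf hA0
    have e : B * ε = A * ε + K.card * (D * ε) := by rw [hB]; ring
    linarith
  refine (ENNReal.ofReal_le_ofReal hfin).trans ?_
  rw [ENNReal.ofReal_add hA'' hδ'.le]
  simp

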